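import Pool.Agent.V1191.LL.Reg

/-!
Smoothing of the regularised function, and the construction used for the lower bound.
-/

open MeasureTheory Set Filter Topology

namespace Pool.Agent.V1191.LL

variable {E : Type*} [NormedAddCommGroup E] [InnerProductSpace ℝ E] [FiniteDimensional ℝ E]
  [MeasurableSpace E] [BorelSpace E]

section
variable {M : ℝ} (hM : 0 ≤ M) {P : Set E} (hP : IsCompact P) (hne : P.Nonempty)
  (φ : ContDiffBump (0 : E))

/-- the smoothed function -/
noncomputable def F (x : E) : ℝ := ∫ t, φ.normed volume t * f hM P (x - t)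

/-- the gradient of the smoothed function -/
noncomputable def G (x : E) : E := ∫ t, φ.normed volume t • g hM P (x - t)

include hP hne

theorem intF (x : E) : Integrable (fun t => φ.normed volume t * f hM P (x - t)) := by
  apply Continuous.integrable_of_hasCompactSupport
  · exact φ.continuous_normed.mul ((f_cont hM hP hne).comp (by fun_prop))
  · exact φ.hasCompactSupport_normed.mul_right

theorem intG (x : E) : Integrable (fun t => φ.normed volume t • g hM P (x - t)) := by
  apply Continuous.integrable_of_hasCompactSupport
  · exact φ.continuous_normed.smul ((g_cont hM hP hne).comp (by fun_prop))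
  · exact φ.hasCompactSupport_normed.smul_right

theorem F_contDiff : ContDiff ℝ 2 (F hM (P := P) φ) := by
  have h1 : ContDiff ℝ 2 (convolution (φ.normed volume) (f hM P)
      (ContinuousLinearMap.lsmul ℝ ℝ) volume) := by
    apply HasCompactSupport.contDiff_convolution_left
    · exact φ.hasCompactSupport_normed
    · exact φ.contDiff_normed
    · exact (f_cont hM hP hne).locallyIntegrable
  exact h1

theorem F_taylor (x v : E) :
    |F hM (P := P) φ (x + v) - F hM (P := P) φ x - inner ℝ (G hM (P := P) φ x) v| ≤
      2 * ‖v‖ ^ 2 := by
  have hi : Integrable (fun t => φ.normed volume t * (2 * ‖v‖ ^ 2)) :=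
    φ.integrable_normed.mul_const _
  have e1 : inner ℝ (G hM (P := P) φ x) v =
      ∫ t, φ.normed volume t * inner ℝ (g hM P (x - t)) v := by
    rw [real_inner_comm]
    unfold G
    rw [← integral_inner (intG hM hP hne φ x)]
    apply integral_congr_ae
    apply Eventually.of_forall
    intro t
    simp only
    rw [inner_smul_right, real_inner_comm]
  have hi2 : Integrable (fun t => φ.normed volume t * inner ℝ (g hM P (x - t)) v) := by
    have := (intG hM hP hne φ x).inner_const (𝕜 := ℝ) v
    refine this.congr (Eventually.of_forall fun t => ?_)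
    simp only
    rw [inner_smul_left]; simp
  have e2 : F hM (P := P) φ (x + v) - F hM (P := P) φ x - inner ℝ (G hM (P := P) φ x) v =
      ∫ t, φ.normed volume t * (f hM P (x - t + v) - f hM P (x - t) -
        inner ℝ (g hM P (x - t)) v) := by
    rw [e1]
    unfold F
    rw [← integral_sub (intF hM hP hne φ (x + v)) (intF hM hP hne φ x), ← integral_sub _ hi2]
    · apply integral_congr_ae
      apply Eventually.of_forall
      intro t
      simp only
      rw [show x + v - t = x - t + v by abel]
      ring
    · exact (intF hM hP hne φ (x + v)).sub (intF hM hP hne φ x)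
  rw [e2]
  calc |∫ t, φ.normed volume t * (f hM P (x - t + v) - f hM P (x - t) -
        inner ℝ (g hM P (x - t)) v)| ≤ ∫ t, φ.normed volume t * (2 * ‖v‖ ^ 2) := by
        rw [← Real.norm_eq_abs]
        apply norm_integral_le_of_norm_le hi
        apply Eventually.of_forall
        intro t
        rw [Real.norm_eq_abs, abs_mul, abs_of_nonneg (φ.nonneg_normed t)]
        exact mul_le_mul_of_nonneg_left (f_taylor hM hP hne (x - t) v) (φ.nonneg_normed t)
    _ = 2 * ‖v‖ ^ 2 := by rw [integral_mul_const, φ.integral_normed, one_mul]

theorem F_hasFDerivAt (x : E) :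
    HasFDerivAt (F hM (P := P) φ) (innerSL ℝ (G hM (P := P) φ x)) x :=
  hasFDerivAt_of_taylor (C := 2) fun v => F_taylor hM hP hne φ x v

theorem G_lip (x y : E) : ‖G hM (P := P) φ x - G hM (P := P) φ y‖ ≤ 12 * ‖x - y‖ := by
  unfold G
  rw [← integral_sub (intG hM hP hne φ x) (intG hM hP hne φ y)]
  calc _ ≤ ∫ t, φ.normed volume t * (12 * ‖x - y‖) := by
        apply norm_integral_le_of_norm_le (φ.integrable_normed.mul_const _)
        apply Eventually.of_forall
        intro t
        rw [← smul_sub, norm_smul, Real.norm_eq_abs, abs_of_nonneg (φ.nonneg_normed t)]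
        have := g_lip hM hP hne (x - t) (y - t)
        rw [sub_sub_sub_cancel_right] at this
        exact mul_le_mul_of_nonneg_left this (φ.nonneg_normed t)
    _ = 12 * ‖x - y‖ := by rw [integral_mul_const, φ.integral_normed, one_mul]

theorem F_lip (x y : E) : |F hM (P := P) φ x - F hM (P := P) φ y| ≤
    3 * Real.sqrt M * ‖x - y‖ := by
  unfold F
  rw [← integral_sub (intF hM hP hne φ x) (intF hM hP hne φ y), ← Real.norm_eq_abs]
  calc _ ≤ ∫ t, φ.normed volume t * (3 * Real.sqrt M * ‖x - y‖) := by
        apply norm_integral_le_of_norm_le (φ.integrable_normed.mul_const _)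
        apply Eventually.of_forall
        intro t
        rw [← mul_sub, norm_mul, Real.norm_eq_abs, abs_of_nonneg (φ.nonneg_normed t)]
        have := f_lip hM hP hne (x - t) (y - t)
        rw [sub_sub_sub_cancel_right] at this
        exact mul_le_mul_of_nonneg_left this (φ.nonneg_normed t)
    _ = 3 * Real.sqrt M * ‖x - y‖ := by rw [integral_mul_const, φ.integral_normed, one_mul]

omit hP hne in
theorem F_nonneg (x : E) : 0 ≤ F hM (P := P) φ x :=
  integral_nonneg fun t => mul_nonneg (φ.nonneg_normed t) (f_nonneg hM P _)

theorem F_le (x : E) : F hM (P := P) φ x ≤ M := by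
  calc F hM (P := P) φ x ≤ ∫ t, φ.normed volume t * M :=
        integral_mono (intF hM hP hne φ x) (φ.integrable_normed.mul_const _) fun t =>
          mul_le_mul_of_nonneg_left (f_le hM P _) (φ.nonneg_normed t)
    _ = M := by rw [integral_mul_const, φ.integral_normed, one_mul]

theorem F_ge {m : ℝ} {x : E} (h : ∀ z, ‖z - x‖ < φ.rOut → m ≤ f hM P z) :
    m ≤ F hM (P := P) φ x := by
  calc m = ∫ t, φ.normed volume t * m := by rw [integral_mul_const, φ.integral_normed, one_mul]
    _ ≤ F hM (P := P) φ x := by
        apply integral_mono (φ.integrable_normed.mul_const _) (intF hM hP hne φ x)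
        intro t
        by_cases ht : φ.normed volume t = 0
        · simp [ht]
        · have ht2 : t ∈ Function.support (φ.normed volume) := ht
          rw [φ.support_normed_eq, Metric.mem_ball, dist_zero_right] at ht2
          apply mul_le_mul_of_nonneg_left _ (φ.nonneg_normed t)
          apply h
          rw [sub_sub_cancel_left, norm_neg]
          exact ht2

omit hP hne in
theorem F_zero {x : E} (h : ∀ z, ‖z - x‖ < φ.rOut → z ∈ P) :
    F hM (P := P) φ x = 0 := by
  unfold F
  have : ∀ t, φ.normed volume t * f hM P (x - t) = 0 := by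
    intro t
    by_cases ht : φ.normed volume t = 0
    · rw [ht, zero_mul]
    · have ht2 : t ∈ Function.support (φ.normed volume) := ht
      rw [φ.support_normed_eq, Metric.mem_ball, dist_zero_right] at ht2
      rw [f_zero hM, mul_zero]
      apply h
      rw [sub_sub_cancel_left, norm_neg]
      exact ht2
  simp [this]

end

end Pool.Agent.V1191.LL
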