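import Mathlib

/-!
Dimension-free `C^{1,1}` regularisation of a truncated squared distance.
-/

open MeasureTheory Set Filter Topology

namespace Pool.Agent.V1191.LL

variable {E : Type*} [NormedAddCommGroup E] [InnerProductSpace ℝ E] [FiniteDimensional ℝ E]

/-- truncated squared distance to `P` -/
noncomputable def h (M : ℝ) (P : Set E) (y : E) : ℝ := min M (Metric.infDist y P ^ 2)

theorem h_cont (M : ℝ) (P : Set E) : Continuous (h M P) := by
  unfold h
  exact continuous_const.min ((Metric.continuous_infDist_pt P).pow 2)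

theorem h_nonneg {M : ℝ} (hM : 0 ≤ M) (P : Set E) (y : E) : 0 ≤ h M P y :=
  le_min hM (sq_nonneg _)

theorem h_le (M : ℝ) (P : Set E) (y : E) : h M P y ≤ M := min_le_left _ _

theorem h_le_dist (M : ℝ) {P : Set E} (y : E) {c : E} (hc : c ∈ P) :
    h M P y ≤ ‖y - c‖ ^ 2 := by
  refine (min_le_right _ _).trans ?_
  have h1 := Metric.infDist_le_dist_of_mem (x := y) hc
  rw [dist_eq_norm] at h1
  exact pow_le_pow_left₀ Metric.infDist_nonneg h1 2

theorem norm_combo (a b c : E) (t : ℝ) :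
    ‖(1 - t) • a + t • b - c‖ ^ 2 =
      (1 - t) * ‖a - c‖ ^ 2 + t * ‖b - c‖ ^ 2 - t * (1 - t) * ‖a - b‖ ^ 2 := by
  have e1 : (1 - t) • a + t • b - c = (1 - t) • (a - c) + t • (b - c) := by
    simp only [smul_sub, sub_smul, one_smul]; abel
  have e2 : a - b = (a - c) - (b - c) := by abel
  rw [e1, e2]
  generalize a - c = u
  generalize b - c = v
  rw [norm_add_sq_real, norm_sub_sq_real, norm_smul, norm_smul, inner_smul_left, inner_smul_right,
    mul_pow, mul_pow, Real.norm_eq_abs, Real.norm_eq_abs, sq_abs, sq_abs]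
  simp only [conj_trivial]
  ring

/-- semiconcavity of `h` -/
theorem h_semiconcave {M : ℝ} {P : Set E} (hP : IsCompact P) (hne : P.Nonempty) (a b : E)
    {t : ℝ} (ht0 : 0 ≤ t) (ht1 : t ≤ 1) :
    (1 - t) * h M P a + t * h M P b - t * (1 - t) * ‖a - b‖ ^ 2 ≤
      h M P ((1 - t) • a + t • b) := by
  have h3 : 0 ≤ t * (1 - t) * ‖a - b‖ ^ 2 :=
    mul_nonneg (mul_nonneg ht0 (by linarith)) (sq_nonneg _)
  unfold h
  rw [le_min_iff]
  constructor
  · have h1 : min M (Metric.infDist a P ^ 2) ≤ M := min_le_left _ _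
    have h2 : min M (Metric.infDist b P ^ 2) ≤ M := min_le_left _ _
    nlinarith
  · obtain ⟨c, hc, hd⟩ := hP.exists_infDist_eq_dist hne ((1 - t) • a + t • b)
    rw [hd, dist_eq_norm, norm_combo]
    have h1 := h_le_dist M a hc
    have h2 := h_le_dist M b hc
    unfold h at h1 h2
    nlinarith

/-- The function to be maximised. -/
noncomputable def Phi (M : ℝ) (P : Set E) (x y : E) : ℝ := h M P y - 2 * ‖x - y‖ ^ 2

theorem exists_max {M : ℝ} (hM : 0 ≤ M) (P : Set E) (x : E) :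
    ∃ y, ∀ z, Phi M P x z ≤ Phi M P x y := by
  have hc : Continuous (Phi M P x) := by
    unfold Phi
    exact (h_cont M P).sub (by fun_prop)
  obtain ⟨y, hy, hmax⟩ := (isCompact_closedBall x (M + 1)).exists_isMaxOn
    ⟨x, Metric.mem_closedBall_self (by linarith)⟩ hc.continuousOn
  refine ⟨y, fun z => ?_⟩
  by_cases hz : z ∈ Metric.closedBall x (M + 1)
  · exact hmax hz
  · have h1 : Phi M P x x ≤ Phi M P x y := hmax (Metric.mem_closedBall_self (by linarith))
    have h2 : 0 ≤ Phi M P x x := by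
      unfold Phi
      simp [h_nonneg hM P x]
    have h3 : M + 1 < ‖x - z‖ := by
      rw [Metric.mem_closedBall, dist_comm, dist_eq_norm] at hz
      exact not_le.mp hz
    have h4 : Phi M P x z ≤ 0 := by
      unfold Phi
      have := h_le M P z
      nlinarith [norm_nonneg (x - z)]
    linarith

open Classical in
/-- the maximiser -/
noncomputable def ys {M : ℝ} (hM : 0 ≤ M) (P : Set E) (x : E) : E := (exists_max hM P x).choose

theorem ys_spec {M : ℝ} (hM : 0 ≤ M) (P : Set E) (x z : E) :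
    Phi M P x z ≤ Phi M P x (ys hM P x) := (exists_max hM P x).choose_spec z

theorem ys_strong {M : ℝ} (hM : 0 ≤ M) {P : Set E} (hP : IsCompact P) (hne : P.Nonempty)
    (x y : E) : Phi M P x y ≤ Phi M P x (ys hM P x) - ‖y - ys hM P x‖ ^ 2 := by
  set s := ys hM P x with hs
  have key : ∀ t : ℝ, 0 < t → t ≤ 1 →
      Phi M P x y + (1 - t) * ‖y - s‖ ^ 2 ≤ Phi M P x s := by
    intro t ht0 ht1
    have h1 := ys_spec hM P x ((1 - t) • s + t • y)
    rw [← hs] at h1
    have h2 := h_semiconcave (M := M) hP hne s y ht0.le ht1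
    have h3 := norm_combo s y x t
    unfold Phi at h1 ⊢
    rw [norm_sub_rev x, h3] at h1
    rw [norm_sub_rev x y, norm_sub_rev x s, norm_sub_rev y s]
    rw [norm_sub_rev x s] at h1
    have h4 : t * (h M P y - 2 * ‖y - x‖ ^ 2 + (1 - t) * ‖s - y‖ ^ 2) ≤
        t * (h M P s - 2 * ‖s - x‖ ^ 2) := by
      nlinarith
    exact le_of_mul_le_mul_left h4 ht0
  apply le_of_forall_pos_le_add
  intro ε hε
  set N := ‖y - s‖ ^ 2 with hN
  have hN0 : 0 ≤ N := sq_nonneg _
  have h5 := key (min 1 (ε / (N + 1))) (lt_min one_pos (by positivity)) (min_le_left _ _)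
  have h6 : min 1 (ε / (N + 1)) * N ≤ ε := by
    calc min 1 (ε / (N + 1)) * N ≤ ε / (N + 1) * N :=
          mul_le_mul_of_nonneg_right (min_le_right _ _) hN0
      _ ≤ ε := by
          rw [div_mul_eq_mul_div, div_le_iff₀ (by positivity)]
          nlinarith
  linarith

/-- The regularised function. -/
noncomputable def f {M : ℝ} (hM : 0 ≤ M) (P : Set E) (x : E) : ℝ := Phi M P x (ys hM P x)

/-- Its gradient. -/
noncomputable def g {M : ℝ} (hM : 0 ≤ M) (P : Set E) (x : E) : E := (4 : ℝ) • (ys hM P x - x)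

theorem f_taylor {M : ℝ} (hM : 0 ≤ M) {P : Set E} (hP : IsCompact P) (hne : P.Nonempty)
    (x v : E) : |f hM P (x + v) - f hM P x - inner ℝ (g hM P x) v| ≤ 2 * ‖v‖ ^ 2 := by
  set s := ys hM P x with hs
  have e1 : ∀ y : E, ‖x + v - y‖ ^ 2 = ‖x - y‖ ^ 2 + 2 * inner ℝ (x - y) v + ‖v‖ ^ 2 := by
    intro y
    rw [show x + v - y = (x - y) + v by abel, norm_add_sq_real]
  have eg : inner ℝ (g hM P x) v = -4 * inner ℝ (x - s) v := by
    unfold g
    rw [inner_smul_left, ← hs, show s - x = -(x - s) by abel, inner_neg_left]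
    simp
  have hlow : f hM P x + inner ℝ (g hM P x) v - 2 * ‖v‖ ^ 2 ≤ f hM P (x + v) := by
    have h1 := ys_spec hM P (x + v) s
    unfold f
    rw [eg]
    refine le_trans (le_of_eq ?_) h1
    unfold Phi
    rw [e1, ← hs]
    ring
  have hup : f hM P (x + v) ≤ f hM P x + inner ℝ (g hM P x) v + 2 * ‖v‖ ^ 2 := by
    set y := ys hM P (x + v) with hy
    have h1 := ys_strong hM hP hne x y
    rw [← hs] at h1
    have h2 : f hM P (x + v) = Phi M P x y - 2 * (2 * inner ℝ (x - y) v + ‖v‖ ^ 2) := by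
      unfold f
      rw [← hy]
      unfold Phi
      rw [e1]; ring
    have h3 : inner ℝ (x - y) v = inner ℝ (x - s) v - inner ℝ (y - s) v := by
      rw [← inner_sub_left]; congr 1; abel
    have h4 : inner ℝ (y - s) v ≤ ‖y - s‖ * ‖v‖ := real_inner_le_norm _ _
    rw [h2, eg, h3]
    unfold f
    rw [← hs]
    nlinarith [sq_nonneg (‖y - s‖ - 2 * ‖v‖)]
  rw [abs_le]
  constructor <;> linarith

theorem ys_lip {M : ℝ} (hM : 0 ≤ M) {P : Set E} (hP : IsCompact P) (hne : P.Nonempty)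
    (x x' : E) : ‖ys hM P x - ys hM P x'‖ ≤ 2 * ‖x - x'‖ := by
  set s := ys hM P x with hs
  set s' := ys hM P x' with hs'
  have h1 := ys_strong hM hP hne x s'
  have h2 := ys_strong hM hP hne x' s
  rw [← hs] at h1
  rw [← hs'] at h2
  unfold Phi at h1 h2
  rw [norm_sub_rev s' s] at h1
  have e : ‖x - s'‖ ^ 2 + ‖x' - s‖ ^ 2 - ‖x - s‖ ^ 2 - ‖x' - s'‖ ^ 2 =
      2 * inner ℝ (x - x') (s - s') := by
    simp only [norm_sub_sq_real, inner_sub_left, inner_sub_right]
    ring
  have h3 : ‖s - s'‖ ^ 2 ≤ 2 * inner ℝ (x - x') (s - s') := by linarith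
  have h4 : inner ℝ (x - x') (s - s') ≤ ‖x - x'‖ * ‖s - s'‖ := real_inner_le_norm _ _
  by_contra hcon
  have hcon := not_le.mp hcon
  have h5 : 0 < ‖s - s'‖ := lt_of_le_of_lt (by positivity) hcon
  nlinarith

theorem g_lip {M : ℝ} (hM : 0 ≤ M) {P : Set E} (hP : IsCompact P) (hne : P.Nonempty)
    (x x' : E) : ‖g hM P x - g hM P x'‖ ≤ 12 * ‖x - x'‖ := by
  unfold g
  have e : (4 : ℝ) • (ys hM P x - x) - (4 : ℝ) • (ys hM P x' - x') =
      (4 : ℝ) • ((ys hM P x - ys hM P x') - (x - x')) := by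
    simp only [smul_sub]; abel
  rw [e, norm_smul]
  have h1 := ys_lip hM hP hne x x'
  have h2 := norm_sub_le (ys hM P x - ys hM P x') (x - x')
  rw [Real.norm_eq_abs, abs_of_pos (by norm_num : (0 : ℝ) < 4)]
  linarith

theorem f_ge {M : ℝ} (hM : 0 ≤ M) (P : Set E) (x : E) : h M P x ≤ f hM P x := by
  have := ys_spec hM P x x
  unfold f
  refine le_trans (le_of_eq ?_) this
  unfold Phi; simp

theorem f_nonneg {M : ℝ} (hM : 0 ≤ M) (P : Set E) (x : E) : 0 ≤ f hM P x :=
  (h_nonneg hM P x).trans (f_ge hM P x)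

theorem f_le {M : ℝ} (hM : 0 ≤ M) (P : Set E) (x : E) : f hM P x ≤ M := by
  unfold f Phi
  have := h_le M P (ys hM P x)
  have := sq_nonneg ‖x - ys hM P x‖
  linarith

theorem f_zero {M : ℝ} (hM : 0 ≤ M) {P : Set E} {x : E} (hx : x ∈ P) : f hM P x = 0 := by
  apply le_antisymm _ (f_nonneg hM P x)
  unfold f Phi
  have := h_le_dist M (ys hM P x) hx
  rw [norm_sub_rev x]
  have := sq_nonneg ‖ys hM P x - x‖
  linarith

theorem g_norm {M : ℝ} (hM : 0 ≤ M) (P : Set E) (x : E) : ‖g hM P x‖ ≤ 3 * Real.sqrt M := by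
  have h1 := f_nonneg hM P x
  have h2 := h_le M P (ys hM P x)
  unfold f Phi at h1
  have h3 : 2 * ‖x - ys hM P x‖ ^ 2 ≤ M := by linarith
  unfold g
  rw [norm_smul, Real.norm_eq_abs, abs_of_pos (by norm_num : (0 : ℝ) < 4), norm_sub_rev]
  have h4 : (4 * ‖x - ys hM P x‖) ^ 2 ≤ (3 * Real.sqrt M) ^ 2 := by
    rw [mul_pow, mul_pow, Real.sq_sqrt hM]
    nlinarith
  exact (pow_le_pow_iff_left₀ (by positivity) (by positivity) (by norm_num)).mp h4

theorem g_cont {M : ℝ} (hM : 0 ≤ M) {P : Set E} (hP : IsCompact P) (hne : P.Nonempty) :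
    Continuous (g hM P) := by
  have : LipschitzWith 12 (g hM P) := LipschitzWith.of_dist_le_mul fun x y => by
    rw [dist_eq_norm, dist_eq_norm]; exact_mod_cast g_lip hM hP hne x y
  exact this.continuous

/-- differentiability from a quadratic Taylor bound -/
theorem hasFDerivAt_of_taylor {F : E → ℝ} {A : E →L[ℝ] ℝ} {x : E} {C : ℝ}
    (hF : ∀ v, |F (x + v) - F x - A v| ≤ C * ‖v‖ ^ 2) : HasFDerivAt F A x := by
  rw [hasFDerivAt_iff_isLittleO_nhds_zero]
  have h1 : (fun v : E => F (x + v) - F x - A v) =O[𝓝 0] fun v : E => ‖v‖ ^ 2 := by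
    apply Asymptotics.IsBigO.of_bound C
    apply Eventually.of_forall
    intro v
    rw [Real.norm_eq_abs, Real.norm_eq_abs, abs_of_nonneg (sq_nonneg ‖v‖)]
    exact hF v
  refine h1.trans_isLittleO ?_
  have h2 : (fun v : E => ‖v‖ ^ 2) =o[𝓝 0] fun v : E => ‖v‖ ^ 1 :=
    Asymptotics.isLittleO_norm_pow_norm_pow (by norm_num)
  simp only [pow_one] at h2
  exact h2.of_norm_right

theorem f_hasFDerivAt {M : ℝ} (hM : 0 ≤ M) {P : Set E} (hP : IsCompact P) (hne : P.Nonempty)
    (x : E) : HasFDerivAt (f hM P) (innerSL ℝ (g hM P x)) x :=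
  hasFDerivAt_of_taylor (C := 2) fun v => f_taylor hM hP hne x v

theorem f_cont {M : ℝ} (hM : 0 ≤ M) {P : Set E} (hP : IsCompact P) (hne : P.Nonempty) :
    Continuous (f hM P) :=
  continuous_iff_continuousAt.mpr fun x => (f_hasFDerivAt hM hP hne x).continuousAt

theorem f_lip {M : ℝ} (hM : 0 ≤ M) {P : Set E} (hP : IsCompact P) (hne : P.Nonempty)
    (x y : E) : |f hM P x - f hM P y| ≤ 3 * Real.sqrt M * ‖x - y‖ := by
  have := Convex.norm_image_sub_le_of_norm_hasFDerivWithin_le (𝕜 := ℝ) (f := f hM P)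
    (f' := fun x => innerSL ℝ (g hM P x)) (s := Set.univ) (C := 3 * Real.sqrt M)
    (fun z _ => (f_hasFDerivAt hM hP hne z).hasFDerivWithinAt)
    (fun z _ => by rw [innerSL_apply_norm]; exact g_norm hM P z) convex_univ
    (Set.mem_univ y) (Set.mem_univ x)
  simpa using this

end Pool.Agent.V1191.LL
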