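import Pool.Agent.V1191.LL.Mol

/-!
Volume bound and the final construction.
-/

open MeasureTheory Set Filter Topology

namespace Pool.Agent.V1191.LL

theorem ball_vol {d : ℕ} {b ρ : ℝ} (hb : 0 < b) (hρ : 0 ≤ ρ) :
    (volume (Metric.ball (0 : EuclideanSpace ℝ (Fin d)) ρ)).toReal ≤
      Real.exp (b * ρ ^ 2) * (Real.pi / b) ^ ((d : ℝ) / 2) := by
  have h1 := GaussianFourier.integral_rexp_neg_mul_sq_norm
    (V := EuclideanSpace ℝ (Fin d)) hb
  rw [finrank_euclideanSpace_fin] at h1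
  have hpos : 0 < (Real.pi / b) ^ ((d : ℝ) / 2) := Real.rpow_pos_of_pos (by positivity) _
  have hint : Integrable (fun v : EuclideanSpace ℝ (Fin d) => Real.exp (-b * ‖v‖ ^ 2)) := by
    by_contra hcon
    rw [integral_undef hcon] at h1
    linarith
  have h2 : ∫ v in Metric.ball (0 : EuclideanSpace ℝ (Fin d)) ρ, Real.exp (-(b * ρ ^ 2)) ≤
      ∫ v in Metric.ball (0 : EuclideanSpace ℝ (Fin d)) ρ, Real.exp (-b * ‖v‖ ^ 2) := by
    apply setIntegral_mono_on
    · exact integrableOn_const (measure_ball_lt_top.ne) (by simp)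
    · exact hint.integrableOn
    · exact measurableSet_ball
    · intro v hv
      rw [Metric.mem_ball, dist_zero_right] at hv
      apply Real.exp_le_exp.mpr
      have : ‖v‖ ^ 2 ≤ ρ ^ 2 := pow_le_pow_left₀ (norm_nonneg _) hv.le 2
      nlinarith
  have h3 : ∫ v in Metric.ball (0 : EuclideanSpace ℝ (Fin d)) ρ, Real.exp (-b * ‖v‖ ^ 2) ≤
      ∫ v : EuclideanSpace ℝ (Fin d), Real.exp (-b * ‖v‖ ^ 2) :=
    setIntegral_le_integral hint (Eventually.of_forall fun v => (Real.exp_pos _).le)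
  rw [setIntegral_const, smul_eq_mul] at h2
  rw [h1] at h3
  have h4 : (volume (Metric.ball (0 : EuclideanSpace ℝ (Fin d)) ρ)).toReal *
      Real.exp (-(b * ρ ^ 2)) ≤ (Real.pi / b) ^ ((d : ℝ) / 2) := h2.trans h3
  calc (volume (Metric.ball (0 : EuclideanSpace ℝ (Fin d)) ρ)).toReal =
      Real.exp (b * ρ ^ 2) * ((volume (Metric.ball (0 : EuclideanSpace ℝ (Fin d)) ρ)).toReal *
      Real.exp (-(b * ρ ^ 2))) := by
        rw [mul_left_comm, ← Real.exp_add, add_neg_cancel, Real.exp_zero, mul_one]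
    _ ≤ _ := mul_le_mul_of_nonneg_left h4 (Real.exp_pos _).le

/-- the main construction -/
theorem main (d : ℕ) (hd : 1 ≤ d) (D : Set (EuclideanSpace ℝ (Fin d))) (hDo : IsOpen D)
    (hD : volume D = 1) (n : ℕ) (hn : 1 ≤ n) (x : Fin n → EuclideanSpace ℝ (Fin d)) :
    ∃ f : EuclideanSpace ℝ (Fin d) → ℝ,
        ContDiffOn ℝ 2 f D ∧
        (∀ y ∈ D, |f y| ≤ 1) ∧
        (∀ y ∈ D, ∀ z ∈ D, |f y - f z| ≤ (Real.sqrt (d : ℝ))⁻¹ * dist y z) ∧
        (∀ θ : EuclideanSpace ℝ (Fin d), ‖θ‖ = 1 →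
          ∀ y ∈ D, ∀ z ∈ D,
            |fderiv ℝ f y θ - fderiv ℝ f z θ| ≤ ((d : ℝ))⁻¹ * dist y z) ∧
        (∀ i, f (x i) = 0) ∧
        1 / 7776 * (n : ℝ) ^ (-(2 : ℝ) / (d : ℝ)) ≤ |∫ y in D, f y| := by
  have hd0 : (0 : ℝ) < d := by exact_mod_cast hd
  have hn0 : (0 : ℝ) < n := by exact_mod_cast hn
  set N : ℝ := (n : ℝ) ^ (-(2 : ℝ) / (d : ℝ)) with hN
  have hNpos : 0 < N := Real.rpow_pos_of_pos hn0 _
  have hN1 : N ≤ 1 := Real.rpow_le_one_of_one_le_of_nonpos (by exact_mod_cast hn)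
    (div_nonpos_of_nonpos_of_nonneg (by norm_num) hd0.le)
  set ρ : ℝ := Real.sqrt (d * N) / 9 with hρ
  have hρpos : 0 < ρ := by positivity
  have hρ2 : ρ ^ 2 = d * N / 81 := by
    rw [hρ, div_pow, Real.sq_sqrt (by positivity)]; norm_num
  set M : ℝ := ρ ^ 2 / 4 with hMdef
  have hM : 0 ≤ M := by positivity
  have hsM : Real.sqrt M = ρ / 2 := by
    rw [hMdef, show ρ ^ 2 / 4 = (ρ / 2) ^ 2 by ring, Real.sqrt_sq (by positivity)]
  set δ : ℝ := ρ / 4 with hδ
  have hδpos : 0 < δ := by positivity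
  set P : Set (EuclideanSpace ℝ (Fin d)) := ⋃ i, Metric.closedBall (x i) δ with hPdef
  have hP : IsCompact P := isCompact_iUnion fun i => isCompact_closedBall _ _
  have hne : P.Nonempty := by
    refine ⟨x ⟨0, hn⟩, mem_iUnion.mpr ⟨⟨0, hn⟩, Metric.mem_closedBall_self hδpos.le⟩⟩
  let φ : ContDiffBump (0 : EuclideanSpace ℝ (Fin d)) := ⟨δ / 2, δ, by positivity, by linarith⟩
  have hφ : φ.rOut = δ := rfl
  set FF : EuclideanSpace ℝ (Fin d) → ℝ := F hM (P := P) φ with hFF
  have hFd : ∀ y, HasFDerivAt FF (innerSL ℝ (G hM (P := P) φ y)) y :=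
    fun y => F_hasFDerivAt hM hP hne φ y
  have hfar : ∀ y, (∀ i, ρ ≤ ‖y - x i‖) → M ≤ FF y := by
    intro y hy
    apply F_ge hM hP hne φ
    intro z hz
    rw [hφ] at hz
    refine le_trans ?_ (f_ge hM P z)
    unfold h
    rw [le_min_iff]
    refine ⟨le_rfl, ?_⟩
    obtain ⟨c, hc, hdc⟩ := hP.exists_infDist_eq_dist hne z
    rw [hdc, dist_eq_norm]
    obtain ⟨i, hi⟩ := mem_iUnion.mp hc
    rw [Metric.mem_closedBall, dist_eq_norm] at hi
    have h1 : ρ ≤ ‖y - x i‖ := hy i
    have h2 : ‖y - x i‖ ≤ ‖z - y‖ + ‖z - c‖ + ‖c - x i‖ := by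
      calc ‖y - x i‖ = ‖-(z - y) + (z - c) + (c - x i)‖ := by congr 1; abel
        _ ≤ ‖-(z - y) + (z - c)‖ + ‖c - x i‖ := norm_add_le _ _
        _ ≤ ‖-(z - y)‖ + ‖z - c‖ + ‖c - x i‖ := by gcongr; exact norm_add_le _ _
        _ = _ := by rw [norm_neg]
    have h3 : ρ / 2 ≤ ‖z - c‖ := by rw [hδ] at hz hi; linarith
    calc M = (ρ / 2) ^ 2 := by rw [hMdef]; ring
      _ ≤ ‖z - c‖ ^ 2 := pow_le_pow_left₀ (by positivity) h3 2
  -- volume of the balls
  set B : Set (EuclideanSpace ℝ (Fin d)) := ⋃ i, Metric.ball (x i) ρ with hB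
  have hBvol : volume B ≤ ENNReal.ofReal (1 / 2) := by
    have h1 : volume B ≤ ∑ i, volume (Metric.ball (x i) ρ) := by
      rw [hB]
      refine (measure_iUnion_le _).trans ?_
      rw [tsum_fintype]
    have h2 : ∀ i, volume (Metric.ball (x i) ρ) =
        volume (Metric.ball (0 : EuclideanSpace ℝ (Fin d)) ρ) :=
      fun i => Measure.addHaar_ball_center volume (x i) ρ
    have h3 := ball_vol (d := d) (b := 81 / (2 * N)) (ρ := ρ) (by positivity) hρpos.le
    have h4 : 81 / (2 * N) * ρ ^ 2 = (d : ℝ) / 2 := by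
      rw [hρ2]; field_simp
    have h5 : (Real.pi / (81 / (2 * N))) ^ ((d : ℝ) / 2) =
        (2 * Real.pi / 81) ^ ((d : ℝ) / 2) * (n : ℝ)⁻¹ := by
      rw [show Real.pi / (81 / (2 * N)) = (2 * Real.pi / 81) * N by field_simp,
        Real.mul_rpow (by positivity) hNpos.le]
      congr 1
      rw [hN, ← Real.rpow_mul hn0.le, ← Real.rpow_neg_one]
      congr 1
      field_simp
    rw [h4, h5] at h3
    have h6 : Real.exp ((d : ℝ) / 2) * (2 * Real.pi / 81) ^ ((d : ℝ) / 2) ≤ 1 / 2 := by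
      have e1 : Real.exp ((d : ℝ) / 2) = (Real.exp 1) ^ ((d : ℝ) / 2) := by
        rw [← Real.exp_mul, one_mul]
      rw [e1, ← Real.mul_rpow (Real.exp_pos 1).le (by positivity)]
      have e2 : Real.exp 1 * (2 * Real.pi / 81) ≤ 1 / 4 := by
        have := Real.exp_one_lt_d9
        have := Real.pi_lt_d2
        have := Real.pi_pos
        have := Real.exp_pos 1
        nlinarith
      calc (Real.exp 1 * (2 * Real.pi / 81)) ^ ((d : ℝ) / 2) ≤ (1 / 4 : ℝ) ^ ((d : ℝ) / 2) :=
            Real.rpow_le_rpow (by positivity) e2 (by positivity)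
        _ ≤ (1 / 4 : ℝ) ^ ((1 : ℝ) / 2) := by
            apply Real.rpow_le_rpow_of_exponent_ge (by norm_num) (by norm_num)
            have : (1 : ℝ) ≤ d := by exact_mod_cast hd
            linarith
        _ = 1 / 2 := by
            rw [← Real.sqrt_eq_rpow, show (1 / 4 : ℝ) = (1 / 2) ^ 2 by norm_num,
              Real.sqrt_sq (by norm_num)]
    have h7 : (volume (Metric.ball (0 : EuclideanSpace ℝ (Fin d)) ρ)).toReal ≤
        1 / 2 * (n : ℝ)⁻¹ := by
      refine h3.trans ?_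
      rw [← mul_assoc]
      exact mul_le_mul_of_nonneg_right h6 (by positivity)
    have h8 : volume (Metric.ball (0 : EuclideanSpace ℝ (Fin d)) ρ) ≤
        ENNReal.ofReal (1 / 2 * (n : ℝ)⁻¹) :=
      (ENNReal.le_ofReal_iff_toReal_le measure_ball_lt_top.ne (by positivity)).mpr h7
    refine h1.trans ?_
    simp only [h2, Finset.sum_const, Finset.card_univ, Fintype.card_fin, nsmul_eq_mul]
    calc (n : ENNReal) * volume (Metric.ball (0 : EuclideanSpace ℝ (Fin d)) ρ) ≤
        (n : ENNReal) * ENNReal.ofReal (1 / 2 * (n : ℝ)⁻¹) := by gcongr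
      _ = ENNReal.ofReal (n * (1 / 2 * (n : ℝ)⁻¹)) := by
          rw [ENNReal.ofReal_mul hn0.le, ENNReal.ofReal_natCast]
      _ = ENNReal.ofReal (1 / 2) := by congr 1; field_simp
  have hBm : MeasurableSet B := MeasurableSet.iUnion fun i => measurableSet_ball
  have hDm : MeasurableSet D := hDo.measurableSet
  have hFc : Continuous FF := (F_contDiff hM hP hne φ).continuous
  have hFI : IntegrableOn FF D := by
    refine Measure.integrableOn_of_bounded (M := M) (by rw [hD]; exact ENNReal.one_ne_top)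
      hFc.aestronglyMeasurable ?_
    apply Eventually.of_forall
    intro y
    rw [Real.norm_eq_abs, abs_of_nonneg (F_nonneg hM φ y)]
    exact F_le hM hP hne φ y
  have hlow : M / 2 ≤ ∫ y in D, FF y := by
    have h1 : (1 / 2 : ℝ) ≤ (volume (D \ B)).toReal := by
      have h2 : (1 : ENNReal) ≤ volume (D \ B) + volume B := by
        rw [← hD]
        calc volume D ≤ volume ((D \ B) ∪ B) := measure_mono (by
              intro y hy
              by_cases hyB : y ∈ B
              · exact Or.inr hyB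
              · exact Or.inl ⟨hy, hyB⟩)
          _ ≤ _ := measure_union_le _ _
      have hfin : volume (D \ B) ≠ ⊤ :=
        ne_top_of_le_ne_top (by rw [hD]; exact ENNReal.one_ne_top) (measure_mono diff_subset)
      have h3 : (1 : ENNReal) ≤ volume (D \ B) + ENNReal.ofReal (1 / 2) :=
        h2.trans (add_le_add le_rfl hBvol)
      have h4 := ENNReal.toReal_mono (by simp [hfin]) h3
      rw [ENNReal.toReal_add hfin ENNReal.ofReal_ne_top, ENNReal.toReal_ofReal (by norm_num),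
        ENNReal.toReal_one] at h4
      linarith
    calc M / 2 = M * (1 / 2) := by ring
      _ ≤ M * (volume (D \ B)).toReal := mul_le_mul_of_nonneg_left h1 hM
      _ = ∫ y in D \ B, M := by rw [setIntegral_const, smul_eq_mul, mul_comm]; rfl
      _ ≤ ∫ y in D \ B, FF y := by
          apply setIntegral_mono_on
          · exact integrableOn_const (ne_top_of_le_ne_top (by rw [hD]; exact ENNReal.one_ne_top)
              (measure_mono diff_subset)) (by simp)
          · exact hFI.mono_set diff_subset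
          · exact hDm.diff hBm
          · intro y hy
            apply hfar
            intro i
            by_contra hcon
            apply hy.2
            refine mem_iUnion.mpr ⟨i, ?_⟩
            rw [Metric.mem_ball, dist_eq_norm]
            exact not_le.mp hcon
      _ ≤ ∫ y in D, FF y := by
          apply setIntegral_mono_set hFI
          · exact Eventually.of_forall fun y => F_nonneg hM φ y
          · exact (diff_subset (s := D) (t := B)).eventuallyLE
  have hdinv : (0 : ℝ) < (12 * (d : ℝ))⁻¹ := by positivity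
  have hder : ∀ y, HasFDerivAt (fun y => (12 * (d : ℝ))⁻¹ * FF y)
      ((12 * (d : ℝ))⁻¹ • innerSL ℝ (G hM (P := P) φ y)) y := fun y => (hFd y).const_mul _
  refine ⟨fun y => (12 * (d : ℝ))⁻¹ * FF y, ?_, ?_, ?_, ?_, ?_, ?_⟩
  · exact (contDiff_const.mul (F_contDiff hM hP hne φ)).contDiffOn
  · intro y _
    rw [abs_mul, abs_of_pos hdinv, abs_of_nonneg (F_nonneg hM φ y)]
    have h1 : FF y ≤ M := F_le hM hP hne φ y
    rw [inv_mul_le_iff₀ (by positivity), mul_one]
    have h2 : M ≤ d := by rw [hMdef, hρ2]; nlinarith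
    linarith
  · intro y _ z _
    rw [← mul_sub, abs_mul, abs_of_pos hdinv, dist_eq_norm]
    have h1 : |FF y - FF z| ≤ 3 * Real.sqrt M * ‖y - z‖ := F_lip hM hP hne φ y z
    rw [hsM] at h1
    have h2 : ρ ≤ Real.sqrt d := by
      rw [hρ, Real.sqrt_mul hd0.le]
      have h3 : Real.sqrt N ≤ 1 := by rw [Real.sqrt_le_one]; exact hN1
      have h4 : 0 ≤ Real.sqrt d := Real.sqrt_nonneg _
      nlinarith
    have h5 : Real.sqrt d ^ 2 = d := Real.sq_sqrt hd0.le
    have h6 : 0 < Real.sqrt d := Real.sqrt_pos.mpr hd0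
    have h7 : (12 * (d : ℝ))⁻¹ * (3 * (ρ / 2)) ≤ (Real.sqrt d)⁻¹ := by
      rw [inv_mul_le_iff₀ (by positivity)]
      have : 12 * (d : ℝ) * (Real.sqrt d)⁻¹ = 12 * Real.sqrt d := by
        rw [← div_eq_mul_inv, div_eq_iff h6.ne', mul_assoc, ← sq, h5]
      rw [this]
      linarith
    calc (12 * (d : ℝ))⁻¹ * |FF y - FF z| ≤ (12 * (d : ℝ))⁻¹ * (3 * (ρ / 2) * ‖y - z‖) :=
          mul_le_mul_of_nonneg_left h1 hdinv.le
      _ = (12 * (d : ℝ))⁻¹ * (3 * (ρ / 2)) * ‖y - z‖ := by ring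
      _ ≤ _ := mul_le_mul_of_nonneg_right h7 (norm_nonneg _)
  · intro θ hθ y _ z _
    rw [(hder y).fderiv, (hder z).fderiv]
    simp only [ContinuousLinearMap.smul_apply, innerSL_apply_apply, smul_eq_mul]
    rw [← mul_sub, ← inner_sub_left, abs_mul, abs_of_pos hdinv, dist_eq_norm]
    have h1 : |inner ℝ (G hM (P := P) φ y - G hM (P := P) φ z) θ| ≤ 12 * ‖y - z‖ := by
      refine (abs_real_inner_le_norm _ _).trans ?_
      rw [hθ, mul_one]
      exact G_lip hM hP hne φ y z
    calc (12 * (d : ℝ))⁻¹ * |inner ℝ (G hM (P := P) φ y - G hM (P := P) φ z) θ| ≤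
        (12 * (d : ℝ))⁻¹ * (12 * ‖y - z‖) := mul_le_mul_of_nonneg_left h1 hdinv.le
      _ = _ := by field_simp
  · intro i
    have : FF (x i) = 0 := by
      apply F_zero hM φ
      intro z hz
      refine mem_iUnion.mpr ⟨i, ?_⟩
      rw [Metric.mem_closedBall, dist_eq_norm]
      exact hz.le
    simp only [this, mul_zero]
  · rw [integral_const_mul, abs_of_nonneg (mul_nonneg hdinv.le
      (le_trans (by positivity) hlow))]
    calc 1 / 7776 * N = (12 * (d : ℝ))⁻¹ * (M / 2) := by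
          rw [hMdef, hρ2]; field_simp; norm_num
      _ ≤ _ := mul_le_mul_of_nonneg_left hlow hdinv.le

end Pool.Agent.V1191.LL
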